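import Pool.Agent.R873.TL.Small

/-!
# The best Hermite invariant of tensor products of lattices of dimension `n`
-/

set_option autoImplicit false

namespace Pool.Agent.R873.TL

open Matrix Filter Topology
open scoped Kronecker
open Pool.Agent.H160R3.Herm

/-- `g` is the Hermite invariant of a tensor product, of dimension `n`, of two lattices of
dimensions at least two -/
def IsTensorValue (n : ℕ) (g : ℝ) : Prop :=
  ∃ a b : ℕ, 2 ≤ a ∧ 2 ≤ b ∧ a * b = n ∧
    ∃ (A : Matrix (Fin a) (Fin a) ℝ) (B : Matrix (Fin b) (Fin b) ℝ),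
      A.det ≠ 0 ∧ B.det ≠ 0 ∧ g = herm (A ⊗ₖ B)

/-- supremum of the Hermite invariants of the tensor products of dimension `n` -/
noncomputable def tau (n : ℕ) : ℝ := sSup {g | IsTensorValue n g}

theorem nonempty_fin {a : ℕ} (ha : 0 < a) : Nonempty (Fin a) := ⟨⟨0, ha⟩⟩

theorem hermite_nonneg (n : ℕ) : 0 ≤ hermite n :=
  Real.iSup_nonneg fun A => div_nonneg (minSq_nonneg A.1) (Real.rpow_nonneg (abs_nonneg _) _)

theorem herm_kron_le {a b : ℕ} (ha : 0 < a) (hb : 0 < b) (A : Matrix (Fin a) (Fin a) ℝ)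
    (B : Matrix (Fin b) (Fin b) ℝ) (hA : A.det ≠ 0) (hB : B.det ≠ 0) :
    herm (A ⊗ₖ B) ≤ hermite a * hermite b := by
  have := nonempty_fin ha
  have := nonempty_fin hb
  exact (herm_kron A B).trans (mul_le_mul (herm_le_hermite ha A hA) (herm_le_hermite hb B hB)
    (herm_nonneg B) (hermite_nonneg a))

theorem tau_nonneg (n : ℕ) : 0 ≤ tau n := by
  apply Real.sSup_nonneg
  rintro g ⟨a, b, ha, hb, hab, A, B, hA, hB, rfl⟩
  exact herm_nonneg _

theorem tau_le {n : ℕ} {V : ℝ} (hV : 0 ≤ V)
    (h : ∀ a b : ℕ, 2 ≤ a → 2 ≤ b → a * b = n → hermite a * hermite b ≤ V) : tau n ≤ V := by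
  apply Real.sSup_le _ hV
  rintro g ⟨a, b, ha, hb, hab, A, B, hA, hB, rfl⟩
  exact (herm_kron_le (by omega) (by omega) A B hA hB).trans (h a b ha hb hab)

theorem le_tau {n : ℕ} {g : ℝ} (h : IsTensorValue n g) : g ≤ tau n := by
  refine le_csSup ⟨n, ?_⟩ h
  rintro g ⟨a, b, ha, hb, hab, A, B, hA, hB, rfl⟩
  refine (herm_kron_le (by omega) (by omega) A B hA hB).trans ?_
  rw [← hab]
  push_cast
  exact mul_le_mul (hermite_le (by omega)) (hermite_le (by omega)) (hermite_nonneg b)
    (Nat.cast_nonneg a)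

theorem tau_le_self (n : ℕ) : tau n ≤ n := by
  refine tau_le (Nat.cast_nonneg n) fun a b ha hb hab => ?_
  rw [← hab]
  push_cast
  exact mul_le_mul (hermite_le (by omega)) (hermite_le (by omega)) (hermite_nonneg b)
    (Nat.cast_nonneg a)

theorem le_tau_two_mul {k : ℕ} (hk : 2 ≤ k) : 2 / √3 * hermite k ≤ tau (2 * k) := by
  have h3 : 0 < √(3 : ℝ) := Real.sqrt_pos.2 (by norm_num)
  have : Nonempty {A : Matrix (Fin k) (Fin k) ℝ // A.det ≠ 0} := ⟨⟨1, by simp⟩⟩
  have := nonempty_fin (show 0 < k by omega)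
  have h : hermite k ≤ tau (2 * k) / (2 / √3) := by
    refine ciSup_le fun B => ?_
    rw [← herm_fin, le_div_iff₀ (by positivity), mul_comm]
    exact (herm_hex_kron B.1).trans
      (le_tau ⟨2, k, le_refl 2, hk, rfl, hex, B.1, det_hex_ne, B.2, rfl⟩)
  rw [le_div_iff₀ (by positivity)] at h
  linarith

theorem sqrt3_bounds : (1.732 : ℝ) < √3 ∧ √3 < (1.7321 : ℝ) := by
  constructor
  · exact Real.lt_sqrt_of_sq_lt (by norm_num)
  · rw [Real.sqrt_lt' (by norm_num)]
    norm_num

theorem two_factor {b : ℕ} : hermite 2 * hermite b ≤ 2 / √3 * hermite b :=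
  mul_le_mul_of_nonneg_right hermite_two_le (hermite_nonneg b)

/-- twice a prime -/
theorem tau_two_prime {p : ℕ} (hp : p.Prime) : tau (2 * p) = 2 / √3 * hermite p := by
  refine le_antisymm ?_ (le_tau_two_mul hp.two_le)
  have h3 : 0 < √(3 : ℝ) := Real.sqrt_pos.2 (by norm_num)
  refine tau_le (mul_nonneg (by positivity) (hermite_nonneg p)) fun a b ha hb hab => ?_
  have hdvd : p ∣ a * b := ⟨2, by rw [hab]; ring⟩
  rcases hp.dvd_mul.1 hdvd with ⟨c, rfl⟩ | ⟨c, rfl⟩
  · have h1 : p * (c * b) = p * 2 := by rw [← mul_assoc, hab]; ring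
    have h2 : c * b = 2 := Nat.eq_of_mul_eq_mul_left hp.pos h1
    have hc : c = 1 := by
      rcases Nat.eq_zero_or_pos c with h0 | h0
      · rw [h0] at h2; omega
      · by_contra hne
        have : 2 ≤ c := by omega
        nlinarith
    subst hc
    have hb2 : b = 2 := by omega
    subst hb2
    rw [mul_one, mul_comm (hermite p)]
    exact two_factor
  · have h1 : p * (a * c) = p * 2 := by
      rw [show p * (a * c) = a * (p * c) by ring, hab]; ring
    have h2 : a * c = 2 := Nat.eq_of_mul_eq_mul_left hp.pos h1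
    have hc : c = 1 := by
      rcases Nat.eq_zero_or_pos c with h0 | h0
      · rw [h0] at h2; omega
      · by_contra hne
        have : 2 ≤ c := by omega
        nlinarith
    subst hc
    have ha2 : a = 2 := by omega
    subst ha2
    rw [mul_one]
    exact two_factor

/-- If `γ_k ≤ U k` for all large `k`, then in large dimensions a tensor product has a factor of
dimension two or is bad. -/
theorem core {U : ℝ} (hU : ∀ᶠ k : ℕ in atTop, hermite k ≤ U * k) :
    ∃ N : ℕ, 0 < N ∧ ∀ n ≥ N, ∀ a b : ℕ, 2 ≤ a → a ≤ b → a * b = n →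
      hermite b ≤ U * b ∧ (a = 2 ∨ hermite a * hermite b ≤ 14 / 25 * U * n) := by
  obtain ⟨K, hK⟩ := eventually_atTop.1 hU
  refine ⟨K ^ 2 + 1, by positivity, fun n hn a b ha hab habn => ?_⟩
  have hbK : K ≤ b := by
    by_contra hlt
    push Not at hlt
    have h1 : a * b ≤ b * b := Nat.mul_le_mul_right b hab
    have h2 : b * b ≤ K * K := Nat.mul_le_mul hlt.le hlt.le
    have h3 : K ^ 2 = K * K := sq K
    omega
  have hb := hK b hbK
  refine ⟨hb, ?_⟩
  rcases ha.eq_or_lt with h2 | h3
  · exact Or.inl h2.symm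
  · right
    have h4 := hermite_le_of_three_le (show 3 ≤ a by omega)
    have h5 : hermite a * hermite b ≤ 14 / 25 * a * (U * b) :=
      mul_le_mul h4 hb (hermite_nonneg b) (by positivity)
    refine h5.trans (le_of_eq ?_)
    rw [← habn]
    push_cast
    ring

theorem U_nonneg {U : ℝ} (hU : ∀ᶠ k : ℕ in atTop, hermite k ≤ U * k) : 0 ≤ U := by
  obtain ⟨k, hk, hk1⟩ := (hU.and (eventually_gt_atTop 0)).exists
  have hk0 : (0 : ℝ) < k := by exact_mod_cast hk1
  by_contra hneg
  push Not at hneg
  have := hermite_nonneg k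
  nlinarith

theorem tau_even {U : ℝ} (hU : ∀ᶠ k : ℕ in atTop, hermite k ≤ U * k) :
    ∀ᶠ k : ℕ in atTop, tau (2 * k) ≤ max (2 / √3 * hermite k) (14 / 25 * U * (2 * k)) := by
  have h3 : 0 < √(3 : ℝ) := Real.sqrt_pos.2 (by norm_num)
  have hU0 := U_nonneg hU
  obtain ⟨N, hN, hc⟩ := core hU
  filter_upwards [eventually_ge_atTop N] with k hk
  have key : ∀ a b : ℕ, 2 ≤ a → a ≤ b → a * b = 2 * k →
      hermite a * hermite b ≤ max (2 / √3 * hermite k) (14 / 25 * U * (2 * k)) := by
    intro a b ha hab habn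
    obtain ⟨-, h2 | h2⟩ := hc (2 * k) (by omega) a b ha hab habn
    · subst h2
      have hbk : b = k := by omega
      subst hbk
      exact two_factor.trans (le_max_left _ _)
    · refine h2.trans (le_trans (le_of_eq ?_) (le_max_right _ _))
      push_cast
      ring
  refine tau_le (le_max_of_le_right (by positivity)) fun a b ha hb hab => ?_
  rcases le_total a b with h | h
  · exact key a b ha h hab
  · rw [mul_comm]
    exact key b a hb h (by rw [mul_comm]; exact hab)

theorem tau_upper {U : ℝ} (hU : ∀ᶠ k : ℕ in atTop, hermite k ≤ U * k) :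
    ∀ᶠ n : ℕ in atTop, tau n ≤ 1 / √3 * U * n := by
  obtain ⟨hs1, hs2⟩ := sqrt3_bounds
  have h3 : 0 < √(3 : ℝ) := by linarith
  have hU0 := U_nonneg hU
  obtain ⟨N, hN, hc⟩ := core hU
  filter_upwards [eventually_ge_atTop N] with n hn
  have h14 : (14 / 25 : ℝ) ≤ 1 / √3 := by
    rw [le_div_iff₀ h3]
    linarith
  have key : ∀ a b : ℕ, 2 ≤ a → a ≤ b → a * b = n →
      hermite a * hermite b ≤ 1 / √3 * U * n := by
    intro a b ha hab habn
    obtain ⟨hb, h2 | h2⟩ := hc n hn a b ha hab habn
    · subst h2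
      refine two_factor.trans ?_
      rw [← habn]
      have h5 : 2 / √3 * hermite b ≤ 2 / √3 * (U * b) :=
        mul_le_mul_of_nonneg_left hb (by positivity)
      refine h5.trans (le_of_eq ?_)
      push_cast
      ring
    · refine h2.trans ?_
      have h5 : 0 ≤ U * n := by positivity
      have h6 := mul_le_mul_of_nonneg_right h14 h5
      linarith
  refine tau_le (by positivity) fun a b ha hb hab => ?_
  rcases le_total a b with h | h
  · exact key a b ha h hab
  · rw [mul_comm]
    exact key b a hb h (by rw [mul_comm]; exact hab)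

theorem ratio_le_iff {k : ℕ} (hk : 0 < k) (U : ℝ) : hermite k / k ≤ U ↔ hermite k ≤ U * k := by
  have hk0 : (0 : ℝ) < k := by exact_mod_cast hk
  rw [div_le_iff₀ hk0]

theorem bddU : IsBoundedUnder (· ≤ ·) atTop (fun n : ℕ => hermite n / n) :=
  isBoundedUnder_of ⟨1, fun n => ratio_le_one n⟩

theorem bddL : IsBoundedUnder (· ≥ ·) atTop (fun n : ℕ => hermite n / n) :=
  isBoundedUnder_of ⟨0, fun n => ratio_nonneg n⟩

theorem tau_ratio_le_one (n : ℕ) : tau n / n ≤ 1 := by
  rcases Nat.eq_zero_or_pos n with rfl | hn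
  · simp
  · have hn' : (0 : ℝ) < n := by exact_mod_cast hn
    rw [div_le_one hn']
    exact tau_le_self n

theorem tbddU : IsBoundedUnder (· ≤ ·) atTop (fun n : ℕ => tau n / n) :=
  isBoundedUnder_of ⟨1, fun n => tau_ratio_le_one n⟩

theorem tbddL : IsBoundedUnder (· ≥ ·) atTop (fun n : ℕ => tau n / n) :=
  isBoundedUnder_of ⟨0, fun n => div_nonneg (tau_nonneg n) (Nat.cast_nonneg n)⟩

/-- the upper limit of `γ_n / n` -/
noncomputable def upper : ℝ := limsup (fun n : ℕ => hermite n / n) atTop

theorem upper_pos : 0 < upper := by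
  have h1 : (1 / 144 : ℝ) ≤ upper := by
    refine le_limsup_of_frequently_le ?_ bddU
    refine Eventually.frequently ?_
    filter_upwards [eventually_gt_atTop 0] with n hn
    exact ratio_ge hn
  linarith

theorem ev_upper {c : ℝ} (hc : upper < c) : ∀ᶠ k : ℕ in atTop, hermite k ≤ c * k := by
  filter_upwards [eventually_lt_of_limsup_lt hc bddU, eventually_gt_atTop 0] with k hk hk0
  exact (ratio_le_iff hk0 c).1 hk.le

theorem ev_le {c : ℝ} (hU : ∀ᶠ k : ℕ in atTop, hermite k ≤ c * k) :
    ∀ᶠ n : ℕ in atTop, tau n / n ≤ 1 / √3 * c := by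
  filter_upwards [tau_upper hU, eventually_gt_atTop 0] with n hn hn0
  have hn' : (0 : ℝ) < n := by exact_mod_cast hn0
  rw [div_le_iff₀ hn']
  exact hn

theorem two_mul_ge {k : ℕ} (hk : 2 ≤ k) :
    1 / √3 * (hermite k / k) ≤ tau (2 * k) / ((2 * k : ℕ) : ℝ) := by
  have hk' : (0 : ℝ) < k := by
    have : 0 < k := by omega
    exact_mod_cast this
  have h := le_tau_two_mul hk
  rw [le_div_iff₀ (by positivity)]
  refine le_trans (le_of_eq ?_) h
  push_cast
  field_simp

/-- the exact loss of tensor products -/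
theorem limsup_tau : limsup (fun n : ℕ => tau n / n) atTop = 1 / √3 * upper := by
  have h3 : 0 < √(3 : ℝ) := Real.sqrt_pos.2 (by norm_num)
  apply le_antisymm
  · refine le_of_forall_pos_le_add fun ε hε => ?_
    have h1 := ev_le (ev_upper (show upper < upper + √3 * ε by
      have : 0 < √3 * ε := by positivity
      linarith))
    refine (limsup_le_of_le tbddL.isCoboundedUnder_le h1).trans (le_of_eq ?_)
    field_simp
  · by_contra hcon
    push Not at hcon
    obtain ⟨c, hc1, hc2⟩ := exists_between hcon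
    have h1 := eventually_lt_of_limsup_lt hc1 tbddU
    obtain ⟨N, hN⟩ := eventually_atTop.1 h1
    have h2 : √3 * c < upper := by
      have := mul_lt_mul_of_pos_left hc2 h3
      have e : √3 * (1 / √3 * upper) = upper := by field_simp
      rwa [e] at this
    have h4 : ∃ᶠ k : ℕ in atTop, √3 * c < hermite k / k :=
      frequently_lt_of_lt_limsup bddL.isCoboundedUnder_le h2
    obtain ⟨k, hk1, hk2⟩ := (h4.and_eventually (eventually_ge_atTop (N + 2))).exists
    have h5 := hN (2 * k) (by omega)
    have h6 := two_mul_ge (show 2 ≤ k by omega)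
    have h7 := mul_lt_mul_of_pos_left hk1 (show 0 < 1 / √3 by positivity)
    have e : 1 / √3 * (√3 * c) = c := by field_simp
    rw [e] at h7
    linarith

/-- the question on the limit for tensor products -/
theorem tendsto_iff (L : ℝ) : Tendsto (fun n : ℕ => hermite n / n) atTop (𝓝 L) ↔
    Tendsto (fun k : ℕ => tau (2 * k) / ((2 * k : ℕ) : ℝ)) atTop (𝓝 (1 / √3 * L)) := by
  obtain ⟨hs1, hs2⟩ := sqrt3_bounds
  have h3 : 0 < √(3 : ℝ) := by linarith
  have hd : Tendsto (fun k : ℕ => 2 * k) atTop atTop :=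
    tendsto_id.const_mul_atTop' (by norm_num)
  constructor
  · intro h
    rw [tendsto_order]
    constructor
    · intro c hc
      have h1 : √3 * c < L := by
        have := mul_lt_mul_of_pos_left hc h3
        have e : √3 * (1 / √3 * L) = L := by field_simp
        rwa [e] at this
      filter_upwards [(tendsto_order.1 h).1 _ h1, eventually_ge_atTop 2] with k hk hk2
      have h6 := two_mul_ge hk2
      have h7 := mul_lt_mul_of_pos_left hk (show 0 < 1 / √3 by positivity)
      have e : 1 / √3 * (√3 * c) = c := by field_simp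
      rw [e] at h7
      linarith
    · intro c hc
      have h1 : L < √3 * c := by
        have := mul_lt_mul_of_pos_left hc h3
        have e : √3 * (1 / √3 * L) = L := by field_simp
        rwa [e] at this
      obtain ⟨d, hd1, hd2⟩ := exists_between h1
      have h2 : ∀ᶠ k : ℕ in atTop, hermite k ≤ d * k := by
        filter_upwards [(tendsto_order.1 h).2 _ hd1, eventually_gt_atTop 0] with k hk hk0
        exact (ratio_le_iff hk0 d).1 hk.le
      have h4 := hd.eventually (ev_le h2)
      filter_upwards [h4] with k hk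
      refine lt_of_le_of_lt hk ?_
      have h7 := mul_lt_mul_of_pos_left hd2 (show 0 < 1 / √3 by positivity)
      have e : 1 / √3 * (√3 * c) = c := by field_simp
      rwa [e] at h7
  · intro h
    -- upper estimate
    have hup : ∀ c : ℝ, L < c → ∀ᶠ k : ℕ in atTop, hermite k / k < c := by
      intro c hc
      have h1 : 1 / √3 * L < 1 / √3 * c := mul_lt_mul_of_pos_left hc (by positivity)
      filter_upwards [(tendsto_order.1 h).2 _ h1, eventually_ge_atTop 2] with k hk hk2
      have h6 := two_mul_ge hk2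
      exact lt_of_mul_lt_mul_left (lt_of_le_of_lt h6 hk) (by positivity)
    have hL0 : 0 < L := by
      by_contra hneg
      push Not at hneg
      obtain ⟨k, hk1, hk2⟩ := ((hup (1 / 144) (by linarith)).and (eventually_gt_atTop 0)).exists
      have h5 : 1 / 144 ≤ hermite k / k := ratio_ge hk2
      linarith
    have hU : ∀ᶠ k : ℕ in atTop, hermite k ≤ 101 / 100 * L * k := by
      filter_upwards [hup (101 / 100 * L) (by linarith), eventually_gt_atTop 0] with k hk hk0
      exact (ratio_le_iff hk0 _).1 hk.le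
    have hev := tau_even hU
    have hbig : 14 / 25 * (101 / 100 * L) < 1 / √3 * L := by
      rw [show 1 / √3 * L = L / √3 by ring, lt_div_iff₀ h3]
      nlinarith
    rw [tendsto_order]
    constructor
    · intro c hc
      have h1 : 1 / √3 * c < 1 / √3 * L := mul_lt_mul_of_pos_left hc (by positivity)
      filter_upwards [(tendsto_order.1 h).1 _ h1, (tendsto_order.1 h).1 _ hbig, hev,
        eventually_gt_atTop 0] with k hk1 hk2 hk3 hk0
      have hk' : (0 : ℝ) < k := by exact_mod_cast hk0
      have h2k : (0 : ℝ) < ((2 * k : ℕ) : ℝ) := by positivity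
      have e2 : ((2 * k : ℕ) : ℝ) = 2 * k := by push_cast; ring
      rcases le_max_iff.1 hk3 with h4 | h4
      · have h5 : tau (2 * k) / ((2 * k : ℕ) : ℝ) ≤ 1 / √3 * (hermite k / k) := by
          rw [div_le_iff₀ h2k]
          refine h4.trans (le_of_eq ?_)
          rw [e2]
          field_simp
        exact lt_of_mul_lt_mul_left (lt_of_lt_of_le hk1 h5) (by positivity)
      · exfalso
        have h5 : tau (2 * k) / ((2 * k : ℕ) : ℝ) ≤ 14 / 25 * (101 / 100 * L) := by
          rw [div_le_iff₀ h2k, e2]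
          exact h4
        linarith
    · intro c hc
      exact hup c hc

end Pool.Agent.R873.TL
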