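import Pool.Agent.H160R3.Herm.Main

/-!
# Hermite invariants of tensor products of lattices
-/

set_option autoImplicit false

namespace Pool.Agent.R873.TL

open Matrix
open scoped Kronecker
open Pool.Agent.H160R3.Herm

variable {ι κ : Type} [Fintype ι] [DecidableEq ι] [Fintype κ] [DecidableEq κ]

/-- squared length of the vector of the lattice `A ℤ^ι` with coordinates `w` -/
noncomputable def nsq (A : Matrix ι ι ℝ) (w : ι → ℤ) : ℝ :=
  ∑ i, (A.mulVec (fun j => (w j : ℝ))) i ^ 2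

/-- least squared length of a nonzero vector of the lattice `A ℤ^ι` -/
noncomputable def least (A : Matrix ι ι ℝ) : ℝ :=
  ⨅ w : {w : ι → ℤ // w ≠ 0}, ∑ i, (A.mulVec (fun j => (w.1 j : ℝ))) i ^ 2

/-- the Hermite invariant of the lattice `A ℤ^ι` -/
noncomputable def herm (A : Matrix ι ι ℝ) : ℝ :=
  least A / |A.det| ^ ((2 : ℝ) / (Fintype.card ι : ℝ))

theorem nsq_nonneg (A : Matrix ι ι ℝ) (w : ι → ℤ) : 0 ≤ nsq A w :=
  Finset.sum_nonneg fun _ _ => sq_nonneg _

theorem least_nonneg (A : Matrix ι ι ℝ) : 0 ≤ least A :=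
  Real.iInf_nonneg fun w => nsq_nonneg A w.1

theorem least_le (A : Matrix ι ι ℝ) {w : ι → ℤ} (hw : w ≠ 0) : least A ≤ nsq A w :=
  ciInf_le (f := fun w : {w : ι → ℤ // w ≠ 0} => nsq A w.1)
    ⟨0, by rintro _ ⟨w, rfl⟩; exact nsq_nonneg A w.1⟩ ⟨w, hw⟩

instance nonempty_ne [Nonempty ι] : Nonempty {w : ι → ℤ // w ≠ 0} :=
  ⟨⟨fun _ => 1, fun h => by
    have := congrFun h (Classical.arbitrary ι)
    simp at this⟩⟩

theorem le_least [Nonempty ι] (A : Matrix ι ι ℝ) {μ : ℝ}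
    (h : ∀ w : ι → ℤ, w ≠ 0 → μ ≤ nsq A w) : μ ≤ least A :=
  le_ciInf (f := fun w : {w : ι → ℤ // w ≠ 0} => nsq A w.1) fun w => h w.1 w.2

theorem herm_nonneg (A : Matrix ι ι ℝ) : 0 ≤ herm A :=
  div_nonneg (least_nonneg A) (Real.rpow_nonneg (abs_nonneg _) _)

theorem herm_fin {n : ℕ} (A : Matrix (Fin n) (Fin n) ℝ) :
    herm A = minSq A / |A.det| ^ ((2 : ℝ) / (n : ℝ)) := by
  unfold herm least minSq
  rw [Fintype.card_fin]

theorem herm_le_hermite {n : ℕ} (hn : 0 < n) (A : Matrix (Fin n) (Fin n) ℝ) (hA : A.det ≠ 0) :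
    herm A ≤ hermite n := by
  rw [herm_fin]
  exact le_hermite hn A hA

theorem mulVec_kron (A : Matrix ι ι ℝ) (B : Matrix κ κ ℝ) (x : ι → ℝ) (y : κ → ℝ) (p : ι × κ) :
    ((A ⊗ₖ B).mulVec (fun q : ι × κ => x q.1 * y q.2)) p = (A.mulVec x) p.1 * (B.mulVec y) p.2 := by
  simp only [Matrix.mulVec, dotProduct, kroneckerMap_apply]
  rw [Fintype.sum_prod_type, Finset.sum_mul_sum]
  refine Finset.sum_congr rfl fun i _ => Finset.sum_congr rfl fun j _ => ?_
  ring

theorem nsq_kron (A : Matrix ι ι ℝ) (B : Matrix κ κ ℝ) (w : ι → ℤ) (v : κ → ℤ) :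
    nsq (A ⊗ₖ B) (fun q : ι × κ => w q.1 * v q.2) = nsq A w * nsq B v := by
  unfold nsq
  have h : (fun j : ι × κ => (((w j.1 * v j.2 : ℤ)) : ℝ)) =
      fun q : ι × κ => (w q.1 : ℝ) * (v q.2 : ℝ) := by
    funext q
    push_cast
    rfl
  rw [h, Fintype.sum_prod_type, Finset.sum_mul_sum]
  refine Finset.sum_congr rfl fun i _ => Finset.sum_congr rfl fun j _ => ?_
  rw [mulVec_kron A B (fun i => (w i : ℝ)) (fun j => (v j : ℝ)) (i, j)]
  ring

theorem least_kron [Nonempty ι] [Nonempty κ] (A : Matrix ι ι ℝ) (B : Matrix κ κ ℝ) :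
    least (A ⊗ₖ B) ≤ least A * least B := by
  have key : ∀ (w : {w : ι → ℤ // w ≠ 0}) (v : {v : κ → ℤ // v ≠ 0}),
      least (A ⊗ₖ B) ≤ nsq A w.1 * nsq B v.1 := by
    intro w v
    rw [← nsq_kron]
    apply least_le
    intro h
    obtain ⟨i, hi⟩ := Function.ne_iff.1 w.2
    obtain ⟨j, hj⟩ := Function.ne_iff.1 v.2
    have := congrFun h (i, j)
    simp only [Pi.zero_apply, mul_eq_zero] at this
    rcases this with h1 | h1
    · exact hi h1
    · exact hj h1
  have h1 : ∀ v : {v : κ → ℤ // v ≠ 0}, least (A ⊗ₖ B) ≤ least A * nsq B v.1 := by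
    intro v
    have e : least A * nsq B v.1 = ⨅ w : {w : ι → ℤ // w ≠ 0}, nsq A w.1 * nsq B v.1 :=
      Real.iInf_mul_of_nonneg (nsq_nonneg B v.1) _
    rw [e]
    exact le_ciInf fun w => key w v
  have e : least A * least B = ⨅ v : {v : κ → ℤ // v ≠ 0}, least A * nsq B v.1 :=
    Real.mul_iInf_of_nonneg (least_nonneg A) _
  rw [e]
  exact le_ciInf h1

theorem abs_det_kron [Nonempty ι] [Nonempty κ] (A : Matrix ι ι ℝ) (B : Matrix κ κ ℝ) :
    |(A ⊗ₖ B).det| ^ ((2 : ℝ) / (Fintype.card (ι × κ) : ℝ)) =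
      |A.det| ^ ((2 : ℝ) / (Fintype.card ι : ℝ)) * |B.det| ^ ((2 : ℝ) / (Fintype.card κ : ℝ)) := by
  have hι : (0 : ℝ) < Fintype.card ι := by exact_mod_cast Fintype.card_pos
  have hκ : (0 : ℝ) < Fintype.card κ := by exact_mod_cast Fintype.card_pos
  rw [det_kronecker, abs_mul, abs_pow, abs_pow, Real.mul_rpow (by positivity) (by positivity),
    ← Real.rpow_natCast, ← Real.rpow_natCast, ← Real.rpow_mul (abs_nonneg _),
    ← Real.rpow_mul (abs_nonneg _), Fintype.card_prod]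
  congr 2
  · push_cast
    field_simp
  · push_cast
    field_simp

/-- the Hermite invariant of a tensor product is at most the product of the Hermite invariants -/
theorem herm_kron [Nonempty ι] [Nonempty κ] (A : Matrix ι ι ℝ) (B : Matrix κ κ ℝ) :
    herm (A ⊗ₖ B) ≤ herm A * herm B := by
  unfold herm
  rw [abs_det_kron, div_mul_div_comm]
  exact div_le_div_of_nonneg_right (least_kron A B) (by positivity)

/-- the hexagonal lattice, with minimum `1` -/
noncomputable def hex : Matrix (Fin 2) (Fin 2) ℝ := !![1, 1 / 2; 0, √3 / 2]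

theorem det_hex : hex.det = √3 / 2 := by
  simp [hex, Matrix.det_fin_two]

theorem det_hex_ne : hex.det ≠ 0 := by
  rw [det_hex]
  positivity

theorem nsq_hex_kron (B : Matrix κ κ ℝ) (w : Fin 2 × κ → ℤ) :
    nsq (hex ⊗ₖ B) w = 1 / 2 * (nsq B (fun j => w (0, j)) + nsq B (fun j => w (1, j)) +
      nsq B (fun j => w (0, j) + w (1, j))) := by
  have h0 : ∀ j, ((hex ⊗ₖ B).mulVec (fun q => (w q : ℝ))) (0, j) =
      (B.mulVec (fun j => (w (0, j) : ℝ))) j + 1 / 2 * (B.mulVec (fun j => (w (1, j) : ℝ))) j := by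
    intro j
    simp only [Matrix.mulVec, dotProduct, kroneckerMap_apply, hex]
    rw [Fintype.sum_prod_type, Fin.sum_univ_two, Finset.mul_sum]
    simp
    refine Finset.sum_congr rfl fun i _ => ?_
    ring
  have h1 : ∀ j, ((hex ⊗ₖ B).mulVec (fun q => (w q : ℝ))) (1, j) =
      √3 / 2 * (B.mulVec (fun j => (w (1, j) : ℝ))) j := by
    intro j
    simp only [Matrix.mulVec, dotProduct, kroneckerMap_apply, hex]
    rw [Fintype.sum_prod_type, Fin.sum_univ_two, Finset.mul_sum]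
    simp
    refine Finset.sum_congr rfl fun i _ => ?_
    ring
  have h2 : ∀ j, (B.mulVec (fun j => ((w (0, j) + w (1, j) : ℤ) : ℝ))) j =
      (B.mulVec (fun j => (w (0, j) : ℝ))) j + (B.mulVec (fun j => (w (1, j) : ℝ))) j := by
    intro j
    have : (fun j => ((w (0, j) + w (1, j) : ℤ) : ℝ)) =
        (fun j => (w (0, j) : ℝ)) + (fun j => (w (1, j) : ℝ)) := by
      funext j
      simp
    rw [this, Matrix.mulVec_add]
    rfl
  unfold nsq
  rw [Fintype.sum_prod_type, Fin.sum_univ_two, ← Finset.sum_add_distrib,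
    ← Finset.sum_add_distrib, ← Finset.sum_add_distrib, Finset.mul_sum]
  refine Finset.sum_congr rfl fun j _ => ?_
  rw [h0, h1, h2]
  have h3 : √3 ^ 2 = (3 : ℝ) := Real.sq_sqrt (by norm_num)
  rw [mul_pow, div_pow, h3]
  ring

theorem least_hex_kron [Nonempty κ] (B : Matrix κ κ ℝ) : least B ≤ least (hex ⊗ₖ B) := by
  apply le_least
  intro w hw
  rw [nsq_hex_kron]
  set x : κ → ℤ := fun j => w (0, j) with hx
  set y : κ → ℤ := fun j => w (1, j) with hy
  have hz : (fun j => w (0, j) + w (1, j)) = x + y := rfl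
  rw [hz]
  have hL := least_nonneg B
  have hxy : ¬ (x = 0 ∧ y = 0) := by
    rintro ⟨h1, h2⟩
    apply hw
    funext p
    obtain ⟨i, j⟩ := p
    fin_cases i
    · exact congrFun h1 j
    · exact congrFun h2 j
  by_cases hx0 : x = 0
  · have hy0 : y ≠ 0 := fun h => hxy ⟨hx0, h⟩
    have h1 := least_le B hy0
    have h2 : least B ≤ nsq B (x + y) := by
      rw [hx0, zero_add]
      exact h1
    have h3 := nsq_nonneg B x
    linarith
  · have h1 := least_le B hx0
    by_cases hy0 : y = 0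
    · have h2 : least B ≤ nsq B (x + y) := by
        rw [hy0, add_zero]
        exact h1
      have h3 := nsq_nonneg B y
      linarith
    · have h2 := least_le B hy0
      have h3 := nsq_nonneg B (x + y)
      linarith

theorem herm_hex_kron [Nonempty κ] (B : Matrix κ κ ℝ) :
    2 / √3 * herm B ≤ herm (hex ⊗ₖ B) := by
  have h3 : 0 < √(3 : ℝ) := Real.sqrt_pos.2 (by norm_num)
  unfold herm
  rw [abs_det_kron, det_hex, Fintype.card_fin]
  have e : |√3 / 2| ^ ((2 : ℝ) / ((2 : ℕ) : ℝ)) = √3 / 2 := by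
    rw [abs_of_pos (by positivity)]
    norm_num
  rw [e, div_mul_div_comm]
  have e2 : 2 * least B / (√3 * |B.det| ^ ((2 : ℝ) / (Fintype.card κ : ℝ))) =
      least B / (√3 / 2 * |B.det| ^ ((2 : ℝ) / (Fintype.card κ : ℝ))) := by
    rw [show √3 * |B.det| ^ ((2 : ℝ) / (Fintype.card κ : ℝ)) =
      2 * (√3 / 2 * |B.det| ^ ((2 : ℝ) / (Fintype.card κ : ℝ))) by ring]
    exact mul_div_mul_left _ _ (by norm_num)
  rw [e2]
  exact div_le_div_of_nonneg_right (least_hex_kron B) (by positivity)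

end Pool.Agent.R873.TL
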