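import Pool.Agent.R873.TL.Asym
import Pool.Agent.Results.MP_ef2672_gt.HermitePiSquared

/-!
# Near-optimal tensor products
-/

set_option autoImplicit false

namespace Pool.Agent.R873.TL

open Matrix Filter Topology
open scoped Kronecker
open Pool.Agent.H160R3.Herm

theorem upper_le_one : upper ≤ 1 :=
  limsup_le_of_le bddL.isCoboundedUnder_le (Eventually.of_forall fun n => ratio_le_one n)

theorem upper_le : upper ≤ 1 / Real.pi ^ 2 :=
  Pool.Agent.Results.MP_ef2672_gt.HermitePiSquared.result.1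

theorem hex_kron_eq {b : ℕ} (hb : 0 < b) (B : Matrix (Fin b) (Fin b) ℝ) :
    herm (hex ⊗ₖ B) = 2 / √3 * herm B := by
  have := nonempty_fin hb
  refine le_antisymm ((herm_kron hex B).trans ?_) (herm_hex_kron B)
  exact mul_le_mul_of_nonneg_right (herm_two hex det_hex_ne) (herm_nonneg B)

theorem both_large {ε : ℝ} (hε : 0 < ε) : ∃ K : ℕ, ∀ a b : ℕ, K ≤ a → K ≤ b →
    ∀ (A : Matrix (Fin a) (Fin a) ℝ) (B : Matrix (Fin b) (Fin b) ℝ), A.det ≠ 0 → B.det ≠ 0 →
      herm (A ⊗ₖ B) ≤ (upper ^ 2 + ε) * (a * b) := by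
  have hu := upper_pos
  have hu1 := upper_le_one
  obtain ⟨δ, hδ⟩ : ∃ δ : ℝ, δ = min 1 (ε / 3) := ⟨_, rfl⟩
  have hδ0 : 0 < δ := by
    rw [hδ]
    exact lt_min one_pos (by positivity)
  have hδ1 : δ ≤ 1 := by
    rw [hδ]
    exact min_le_left _ _
  have hδ2 : δ ≤ ε / 3 := by
    rw [hδ]
    exact min_le_right _ _
  obtain ⟨K, hK⟩ := eventually_atTop.1 (ev_upper (show upper < upper + δ by linarith))
  refine ⟨K + 1, fun a b ha hb A B hA hB => ?_⟩
  have h1 := herm_kron_le (show 0 < a by omega) (show 0 < b by omega) A B hA hB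
  have h2 := hK a (by omega)
  have h3 := hK b (by omega)
  have h4 : hermite a * hermite b ≤ ((upper + δ) * a) * ((upper + δ) * b) :=
    mul_le_mul h2 h3 (hermite_nonneg b) (by positivity)
  refine h1.trans (h4.trans ?_)
  have h5 : (upper + δ) ^ 2 ≤ upper ^ 2 + ε := by nlinarith
  have h6 : (0 : ℝ) ≤ a * b := by positivity
  calc (upper + δ) * a * ((upper + δ) * b) = (upper + δ) ^ 2 * (a * b) := by ring
    _ ≤ _ := mul_le_mul_of_nonneg_right h5 h6

theorem near_opt {ε : ℝ} (hε : 0 < ε) : ∃ δ : ℝ, 0 < δ ∧ ∃ N : ℕ, ∀ n ≥ N, ∀ a b : ℕ,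
    2 ≤ a → a ≤ b → a * b = n →
    ∀ (A : Matrix (Fin a) (Fin a) ℝ) (B : Matrix (Fin b) (Fin b) ℝ), A.det ≠ 0 → B.det ≠ 0 →
      (1 - δ) * (1 / √3 * upper) * n ≤ herm (A ⊗ₖ B) →
      a = 2 ∧ (1 - ε) * (2 / √3) ≤ herm A ∧ (1 - ε) * upper * b ≤ herm B := by
  obtain ⟨hs1, hs2⟩ := sqrt3_bounds
  have h3 : 0 < √(3 : ℝ) := by linarith
  have hu := upper_pos
  obtain ⟨δ, hδ⟩ : ∃ δ : ℝ, δ = min (ε / 2) (1 / 100) := ⟨_, rfl⟩
  have hδ0 : 0 < δ := by
    rw [hδ]
    exact lt_min (by positivity) (by norm_num)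
  have hδ1 : δ ≤ ε / 2 := by
    rw [hδ]
    exact min_le_left _ _
  have hδ2 : δ ≤ 1 / 100 := by
    rw [hδ]
    exact min_le_right _ _
  obtain ⟨N, hN, hc⟩ := core (ev_upper (show upper < (1 + δ) * upper by nlinarith))
  refine ⟨δ, hδ0, N, fun n hn a b ha hab habn A B hA hB h => ?_⟩
  have hb0 : 0 < b := by omega
  have hb' : (0 : ℝ) < b := by exact_mod_cast hb0
  have hn' : (0 : ℝ) < n := by
    have : 0 < n := by omega
    exact_mod_cast this
  have := nonempty_fin (show 0 < a by omega)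
  have := nonempty_fin hb0
  obtain ⟨hb, h2 | h2⟩ := hc n hn a b ha hab habn
  · subst h2
    have hk := herm_kron A B
    have hA2 := herm_two A hA
    have hB2 : herm B ≤ (1 + δ) * upper * b := (herm_le_hermite hb0 B hB).trans hb
    have hn2 : (n : ℝ) = 2 * b := by
      rw [← habn]
      push_cast
      ring
    have hA0 := herm_nonneg A
    have hB0 := herm_nonneg B
    rw [hn2] at h
    have hub : 0 < upper * b := by positivity
    refine ⟨rfl, ?_, ?_⟩
    · have h5 : (1 - δ) * (1 / √3 * upper) * (2 * b) ≤ herm A * ((1 + δ) * upper * b) :=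
        h.trans (hk.trans (mul_le_mul_of_nonneg_left hB2 hA0))
      have h6 : ((1 - δ) * (2 / √3)) * (upper * b) ≤ (herm A * (1 + δ)) * (upper * b) := by
        refine (le_of_eq ?_).trans (h5.trans (le_of_eq ?_)) <;> ring
      have h7 := le_of_mul_le_mul_right h6 hub
      have h8 : 0 < 2 / √3 := by positivity
      have h9 : (1 - ε) * (2 / √3) * (1 + δ) ≤ (1 - δ) * (2 / √3) := by
        have h10 : (1 - ε) * (1 + δ) ≤ 1 - δ := by nlinarith
        have h11 := mul_le_mul_of_nonneg_right h10 h8.le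
        linarith
      exact le_of_mul_le_mul_right (h9.trans h7) (by linarith)
    · have h5 : (1 - δ) * (1 / √3 * upper) * (2 * b) ≤ 2 / √3 * herm B :=
        h.trans (hk.trans (mul_le_mul_of_nonneg_right hA2 hB0))
      have h8 : 0 < 2 / √3 := by positivity
      have h6 : (2 / √3) * ((1 - δ) * upper * b) ≤ 2 / √3 * herm B := by
        refine (le_of_eq ?_).trans h5
        ring
      have h7 := le_of_mul_le_mul_left h6 h8
      have h9 : (1 - ε) * (upper * b) ≤ (1 - δ) * (upper * b) :=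
        mul_le_mul_of_nonneg_right (by linarith) hub.le
      linarith
  · exfalso
    have h4 := (h.trans (herm_kron_le (by omega) hb0 A B hA hB)).trans h2
    have hun : 0 < upper * n := by positivity
    have h5 : ((1 - δ) * (1 / √3)) * (upper * n) ≤ (14 / 25 * (1 + δ)) * (upper * n) := by
      refine (le_of_eq ?_).trans (h4.trans (le_of_eq ?_)) <;> ring
    have h6 := le_of_mul_le_mul_right h5 hun
    rw [show (1 - δ) * (1 / √3) = (1 - δ) / √3 by ring, div_le_iff₀ h3] at h6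
    nlinarith

/-- tensor products are below the Minkowski-Hlawka bound -/
theorem below_mh : ∀ᶠ n : ℕ in atTop,
    tau n ≤ 9995 / 10000 * (n / (2 * Real.pi * Real.exp 1)) := by
  obtain ⟨hs1, hs2⟩ := sqrt3_bounds
  have h3 : 0 < √(3 : ℝ) := by linarith
  have hpi := Real.pi_gt_d6
  have hpi0 := Real.pi_pos
  have he := Real.exp_one_lt_d9
  have he0 := Real.exp_pos 1
  have hnum : 1 / √3 * (1 / Real.pi ^ 2) < 9995 / 10000 * (1 / (2 * Real.pi * Real.exp 1)) := by
    rw [one_div_mul_one_div, mul_one_div, div_lt_div_iff₀ (by positivity) (by positivity)]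
    have h4 : 2 * Real.exp 1 < 9995 / 10000 * (√3 * Real.pi) := by
      have h5 : 1.732 * 3.141592 ≤ √3 * Real.pi :=
        mul_le_mul hs1.le hpi.le (by norm_num) h3.le
      linarith
    have h6 := mul_lt_mul_of_pos_left h4 hpi0
    calc 1 * (2 * Real.pi * Real.exp 1) = Real.pi * (2 * Real.exp 1) := by ring
      _ < Real.pi * (9995 / 10000 * (√3 * Real.pi)) := h6
      _ = 9995 / 10000 * (√3 * Real.pi ^ 2) := by ring
  obtain ⟨c, hc1, hc2⟩ := exists_between hnum
  have h7 : upper < √3 * c := by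
    have h8 := mul_lt_mul_of_pos_left hc1 h3
    have e : √3 * (1 / √3 * (1 / Real.pi ^ 2)) = 1 / Real.pi ^ 2 := by field_simp
    rw [e] at h8
    exact lt_of_le_of_lt upper_le h8
  filter_upwards [ev_le (ev_upper h7), eventually_gt_atTop 0] with n hn hn0
  have hn' : (0 : ℝ) < n := by exact_mod_cast hn0
  have e : 1 / √3 * (√3 * c) = c := by field_simp
  rw [e, div_le_iff₀ hn'] at hn
  refine hn.trans ?_
  have h9 := mul_le_mul_of_nonneg_right hc2.le hn'.le
  refine h9.trans (le_of_eq ?_)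
  ring

end Pool.Agent.R873.TL
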