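import Pool.Agent.R873.TL.Basic
import Pool.Agent.R117.HS.Expl

/-!
# Hermite invariants in small dimensions
-/

set_option autoImplicit false

namespace Pool.Agent.R873.TL

open Matrix
open Pool.Agent.H160R3.Herm

theorem nsq_two (A : Matrix (Fin 2) (Fin 2) ℝ) (w : Fin 2 → ℤ) :
    nsq A w = (w 0 * A 0 0 + w 1 * A 0 1) ^ 2 + (w 0 * A 1 0 + w 1 * A 1 1) ^ 2 := by
  unfold nsq
  simp only [Fin.sum_univ_two, Matrix.mulVec, dotProduct]
  ring

/-- Lagrange's bound for plane lattices -/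
theorem plane (A : Matrix (Fin 2) (Fin 2) ℝ) (hA : A.det ≠ 0) :
    3 / 4 * least A ^ 2 ≤ A.det ^ 2 := by
  set s := least A with hs
  rcases (least_nonneg A).eq_or_lt with h0 | hs0
  · rw [hs, ← h0]
    nlinarith [sq_nonneg A.det]
  rw [← hs] at hs0
  obtain ⟨⟨u, hu0⟩, hlt⟩ := exists_lt_of_ciInf_lt (show least A < 2 * s by linarith)
  change nsq A u < 2 * s at hlt
  set x := u 0 with hx
  set y := u 1 with hy
  have hg : Int.gcd x y = 1 := by
    have hgpos : 0 < Int.gcd x y := by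
      rw [Nat.pos_iff_ne_zero]
      intro h0
      obtain ⟨h1, h2⟩ := Int.gcd_eq_zero_iff.1 h0
      apply hu0
      funext i
      fin_cases i
      · exact h1
      · exact h2
    obtain ⟨x', hx'⟩ := Int.gcd_dvd_left x y
    obtain ⟨y', hy'⟩ := Int.gcd_dvd_right x y
    set g := Int.gcd x y with hgdef
    by_contra hg1
    have hg2 : 2 ≤ g := by omega
    have hgr : (2 : ℝ) ≤ (g : ℝ) := by exact_mod_cast hg2
    have hw0 : (![x', y'] : Fin 2 → ℤ) ≠ 0 := by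
      intro h0
      have e1 : x' = 0 := by simpa using congrFun h0 0
      have e2 : y' = 0 := by simpa using congrFun h0 1
      apply hu0
      funext i
      fin_cases i
      · change x = 0
        rw [hx', e1, mul_zero]
      · change y = 0
        rw [hy', e2, mul_zero]
    have h1 : s ≤ nsq A ![x', y'] := least_le A hw0
    rw [nsq_two] at h1 hlt
    simp only [Matrix.cons_val_zero, Matrix.cons_val_one] at h1
    rw [← hx, ← hy] at hlt
    have e1 : (x : ℝ) = g * x' := by exact_mod_cast hx'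
    have e2 : (y : ℝ) = g * y' := by exact_mod_cast hy'
    rw [e1, e2] at hlt
    have h2 : (4 : ℝ) ≤ (g : ℝ) ^ 2 := by nlinarith
    have h3 : ((g : ℝ) * x' * A 0 0 + g * y' * A 0 1) ^ 2 +
        (g * x' * A 1 0 + g * y' * A 1 1) ^ 2 =
        g ^ 2 * ((x' * A 0 0 + y' * A 0 1) ^ 2 + (x' * A 1 0 + y' * A 1 1) ^ 2) := by ring
    rw [h3] at hlt
    nlinarith
  obtain ⟨α, β, hαβ⟩ := (Int.isCoprime_iff_gcd_eq_one.2 hg)
  obtain ⟨t, ht⟩ : ∃ t : ℝ, t = nsq A u := ⟨_, rfl⟩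
  rw [← ht] at hlt
  have htpos : s ≤ t := by
    rw [ht]
    exact least_le A hu0
  obtain ⟨p0, hp0⟩ : ∃ z : ℝ, z = x * A 0 0 + y * A 0 1 := ⟨_, rfl⟩
  obtain ⟨p1, hp1⟩ : ∃ z : ℝ, z = x * A 1 0 + y * A 1 1 := ⟨_, rfl⟩
  have ht' : t = p0 ^ 2 + p1 ^ 2 := by rw [ht, nsq_two, hp0, hp1]
  obtain ⟨q0, hq0⟩ : ∃ z : ℝ, z = -β * A 0 0 + α * A 0 1 := ⟨_, rfl⟩
  obtain ⟨q1, hq1⟩ : ∃ z : ℝ, z = -β * A 1 0 + α * A 1 1 := ⟨_, rfl⟩
  have hab : (α : ℝ) * x + β * y = 1 := by exact_mod_cast hαβ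
  have hcross : p0 * q1 - p1 * q0 = A.det := by
    rw [Matrix.det_fin_two, hp0, hp1, hq0, hq1]
    linear_combination (A 0 0 * A 1 1 - A 0 1 * A 1 0) * hab
  obtain ⟨w, hw⟩ : ∃ w : ℝ, w = (p0 * q0 + p1 * q1) / t := ⟨_, rfl⟩
  obtain ⟨k, hk⟩ : ∃ k : ℤ, k = round w := ⟨_, rfl⟩
  have ht0 : 0 < t := lt_of_lt_of_le hs0 htpos
  obtain ⟨v, hv⟩ : ∃ v : Fin 2 → ℤ, v = ![-β - k * x, α - k * y] := ⟨_, rfl⟩
  have hnv : nsq A v = (q0 - k * p0) ^ 2 + (q1 - k * p1) ^ 2 := by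
    rw [nsq_two, hv]
    simp only [Matrix.cons_val_zero, Matrix.cons_val_one]
    push_cast
    rw [hq0, hq1, hp0, hp1]
    ring
  obtain ⟨r0, hr0⟩ : ∃ z : ℝ, z = q0 - k * p0 := ⟨_, rfl⟩
  obtain ⟨r1, hr1⟩ : ∃ z : ℝ, z = q1 - k * p1 := ⟨_, rfl⟩
  rw [← hr0, ← hr1] at hnv
  have hcv : p0 * r1 - p1 * r0 = A.det := by
    rw [← hcross, hr0, hr1]
    ring
  have hv0 : v ≠ 0 := by
    intro h0
    have h1 : nsq A v = 0 := by
      rw [h0, nsq_two]
      simp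
    rw [hnv] at h1
    have e0 := sq_nonneg r0
    have e1 := sq_nonneg r1
    have h2 : r0 = 0 := pow_eq_zero_iff two_ne_zero |>.1 (by linarith)
    have h3 : r1 = 0 := pow_eq_zero_iff two_ne_zero |>.1 (by linarith)
    rw [h2, h3] at hcv
    apply hA
    rw [← hcv]
    ring
  have hvs : s ≤ r0 ^ 2 + r1 ^ 2 := by
    rw [← hnv]
    exact least_le A hv0
  have hdot : p0 * r0 + p1 * r1 = (w - k) * t := by
    have e1 : p0 * q0 + p1 * q1 = w * t := by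
      rw [hw]
      field_simp
    have e : p0 * r0 + p1 * r1 = (p0 * q0 + p1 * q1) - k * (p0 ^ 2 + p1 ^ 2) := by
      rw [hr0, hr1]
      ring
    rw [e, e1, ← ht']
    ring
  have hr : |w - k| ≤ 1 / 2 := by
    rw [hk]
    exact abs_sub_round w
  have hr2 : (w - k) ^ 2 ≤ 1 / 4 := by
    rw [← sq_abs]
    have h2 := pow_le_pow_left₀ (abs_nonneg (w - k)) hr 2
    linarith
  have hlag : (p0 ^ 2 + p1 ^ 2) * (r0 ^ 2 + r1 ^ 2) =
      (p0 * r0 + p1 * r1) ^ 2 + (p0 * r1 - p1 * r0) ^ 2 := by ring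
  rw [hdot, hcv, ← ht'] at hlag
  have h1 : t * s ≤ t * (r0 ^ 2 + r1 ^ 2) := mul_le_mul_of_nonneg_left hvs ht0.le
  have h2 : ((w - k) * t) ^ 2 ≤ 1 / 4 * t ^ 2 := by
    rw [mul_pow]
    exact mul_le_mul_of_nonneg_right hr2 (sq_nonneg t)
  have h10 := mul_nonneg (sub_nonneg.2 htpos) (sub_nonneg.2 hlt.le)
  have h11 := mul_nonneg (sub_nonneg.2 htpos) hs0.le
  nlinarith

theorem herm_two (A : Matrix (Fin 2) (Fin 2) ℝ) (hA : A.det ≠ 0) : herm A ≤ 2 / √3 := by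
  have h3 : 0 < √(3 : ℝ) := Real.sqrt_pos.2 (by norm_num)
  have hd : 0 < |A.det| := abs_pos.2 hA
  have h := plane A hA
  have e : |A.det| ^ ((2 : ℝ) / (Fintype.card (Fin 2) : ℝ)) = |A.det| := by
    rw [Fintype.card_fin]
    norm_num
  unfold herm
  rw [e, div_le_div_iff₀ hd h3]
  apply le_of_sq_le_sq _ (by positivity)
  rw [mul_pow, mul_pow, Real.sq_sqrt (by norm_num), sq_abs]
  linarith

theorem hermite_two_le : hermite 2 ≤ 2 / √3 := by
  have : Nonempty {A : Matrix (Fin 2) (Fin 2) ℝ // A.det ≠ 0} := ⟨⟨1, by simp⟩⟩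
  refine ciSup_le fun A => ?_
  have h := herm_two A.1 A.2
  rwa [herm_fin] at h

end Pool.Agent.R873.TL
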