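import Pool.Agent.R873.TL.Plane

/-!
# `γ_m / m ≤ 14 / 25` for `m ≥ 3`
-/

set_option autoImplicit false

namespace Pool.Agent.R873.TL

open Matrix
open Pool.Agent.H160R3.Herm

theorem finrank_com_empty (n : ℕ) :
    Module.finrank ℝ (Pool.Agent.R117.HS.com (∅ : Set (Matrix (Fin n) (Fin n) ℝ))) = n := by
  have h : Pool.Agent.R117.HS.com (∅ : Set (Matrix (Fin n) (Fin n) ℝ)) = ⊤ := by
    unfold Pool.Agent.R117.HS.com
    simp
  rw [h, finrank_top]
  simp

theorem mink {n : ℕ} (hn : 0 < n) (A : Matrix (Fin n) (Fin n) ℝ) (hA : A.det ≠ 0) :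
    Pool.Agent.R117.HS.om n ^ 2 * Pool.Agent.R117.HS.inv A ^ n ≤ 4 ^ n := by
  have h := Pool.Agent.R117.HS.main_set hn hA (c := 1) one_pos (d := 1) one_pos ∅
    (by intro F hF; exact absurd hF (Set.notMem_empty F)) 0 n (by simp) (finrank_com_empty n)
  simpa using h

theorem mink_expl {n : ℕ} (hn : 0 < n) (A : Matrix (Fin n) (Fin n) ℝ) (hA : A.det ≠ 0) :
    Real.pi * Pool.Agent.R117.HS.inv A ≤ n + 3 := by
  have h := Pool.Agent.R117.HS.explicit hn hA (c := 1) one_pos (d := 1) one_pos ∅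
    (by intro F hF; exact absurd hF (Set.notMem_empty F)) 0 n (by simp) (finrank_com_empty n)
  rw [pow_zero] at h
  have hn3 : (0 : ℝ) < (n : ℝ) + 3 := by positivity
  have h0 : 0 ≤ Real.pi * Pool.Agent.R117.HS.inv A / (n + 3) := by
    have := Pool.Agent.R117.HS.inv_nonneg A
    have := Real.pi_pos
    positivity
  have h1 := (pow_le_one_iff_of_nonneg h0 hn.ne').1 h
  rwa [div_le_one hn3] at h1

theorem om_three : Pool.Agent.R117.HS.om 3 = 4 * Real.pi / 3 := by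
  have h1 : Real.Gamma (((3 : ℕ) : ℝ) / 2 + 1) = 3 / 4 * √Real.pi := by
    have e : (((3 : ℕ) : ℝ) / 2 + 1) = (1 / 2 + 1) + 1 := by push_cast; norm_num
    rw [e, Real.Gamma_add_one (by norm_num), Real.Gamma_add_one (by norm_num),
      Real.Gamma_one_half_eq]
    ring
  have hpi : 0 < √Real.pi := Real.sqrt_pos.2 Real.pi_pos
  unfold Pool.Agent.R117.HS.om
  rw [h1, div_eq_div_iff (by positivity) (by norm_num)]
  have h2 : √Real.pi ^ 2 = Real.pi := Real.sq_sqrt Real.pi_pos.le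
  calc √Real.pi ^ 3 * 3 = √Real.pi ^ 2 * √Real.pi * 3 := by ring
    _ = 4 * Real.pi * (3 / 4 * √Real.pi) := by rw [h2]; ring

theorem inv_le {m : ℕ} (hm : 3 ≤ m) (A : Matrix (Fin m) (Fin m) ℝ) (hA : A.det ≠ 0) :
    Pool.Agent.R117.HS.inv A ≤ 14 / 25 * m := by
  have hpi := Real.pi_gt_d2
  have h0 := Pool.Agent.R117.HS.inv_nonneg A
  rcases hm.eq_or_lt with h3 | h4
  · subst h3
    have h := mink (by norm_num) A hA
    rw [om_three] at h
    by_contra hcon
    push Not at hcon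
    push_cast at hcon
    have h1 : (42 / 25 : ℝ) < Pool.Agent.R117.HS.inv A := by linarith
    have h2 : (42 / 25 : ℝ) ^ 3 ≤ Pool.Agent.R117.HS.inv A ^ 3 :=
      pow_le_pow_left₀ (by norm_num) h1.le 3
    have h5 : (4 : ℝ) ^ 2 ≤ (4 * Real.pi / 3) ^ 2 :=
      pow_le_pow_left₀ (by norm_num) (by linarith) 2
    have h6 : (4 : ℝ) ^ 2 * (42 / 25) ^ 3 ≤ (4 * Real.pi / 3) ^ 2 * Pool.Agent.R117.HS.inv A ^ 3 :=
      mul_le_mul h5 h2 (by positivity) (by positivity)
    have h7 := h6.trans h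
    norm_num at h7
  · have h := mink_expl (by omega) A hA
    have hm4 : (4 : ℝ) ≤ m := by exact_mod_cast h4
    by_contra hcon
    push Not at hcon
    have h1 : 3.14 * (14 / 25 * (m : ℝ)) ≤ Real.pi * Pool.Agent.R117.HS.inv A :=
      mul_le_mul hpi.le hcon.le (by positivity) (by linarith)
    linarith

theorem hermite_le_of_three_le {m : ℕ} (hm : 3 ≤ m) : hermite m ≤ 14 / 25 * m := by
  have : Nonempty {A : Matrix (Fin m) (Fin m) ℝ // A.det ≠ 0} := ⟨⟨1, by simp⟩⟩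
  exact ciSup_le fun A => inv_le hm A.1 A.2

end Pool.Agent.R873.TL
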